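import Pool.Agent.H19.TM.Stm3

/-!
# Module G1 of project TM3 (statement by helper19)
-/

set_option autoImplicit false

namespace Pool.Agent.H59.TM

open Finset Pool.Agent.H19.TM

theorem tau4_eq (n : ℕ) :
    tau4 n = (ArithmeticFunction.sigma 0 * ArithmeticFunction.sigma 0 :
      ArithmeticFunction ℕ) n := by
  rw [ArithmeticFunction.mul_apply]
  rw [Nat.sum_divisorsAntidiagonal (fun a b => ArithmeticFunction.sigma 0 a *
    ArithmeticFunction.sigma 0 b)]
  unfold tau4
  refine Finset.sum_congr rfl ?_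
  intro d _
  rw [ArithmeticFunction.sigma_zero_apply, ArithmeticFunction.sigma_zero_apply]

theorem sum_choose (k : ℕ) : ∑ i ∈ range (k + 1), (i + 1) * (k - i + 1) = (k + 3).choose 3 := by
  have h1 : ∀ k : ℕ, ∑ i ∈ range (k + 1), (i + 1) = (k + 2).choose 2 := by
    intro k
    induction k with
    | zero => rfl
    | succ k ih =>
      rw [Finset.sum_range_succ, ih, Nat.choose_succ_succ' (k + 2) 1, Nat.choose_one_right]
      ring
  induction k with
  | zero => rfl
  | succ k ih =>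
    rw [Finset.sum_range_succ]
    have h2 : ∑ i ∈ range (k + 1), (i + 1) * (k + 1 - i + 1) =
        ∑ i ∈ range (k + 1), (i + 1) * (k - i + 1) + ∑ i ∈ range (k + 1), (i + 1) := by
      rw [← Finset.sum_add_distrib]
      refine Finset.sum_congr rfl ?_
      intro i hi
      have hi' : i ≤ k := Nat.lt_succ_iff.mp (Finset.mem_range.mp hi)
      have h3 : k + 1 - i = k - i + 1 := by omega
      rw [h3]
      ring
    rw [h2, ih]
    have h4 : ∑ i ∈ range (k + 1), (i + 1) + (k + 1 + 1) * (k + 1 - (k + 1) + 1) =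
        (k + 3).choose 2 := by
      have h5 := h1 (k + 1)
      rw [Finset.sum_range_succ] at h5
      rw [← h5]
      simp
    rw [add_assoc, h4, Nat.choose_succ_succ' (k + 3) 2]
    ring

theorem tau4_prime_pow (p k : ℕ) (hp : p.Prime) : tau4 (p ^ k) = (k + 3).choose 3 := by
  unfold tau4
  rw [Nat.divisors_prime_pow hp, Finset.sum_map, ← sum_choose]
  refine Finset.sum_congr rfl ?_
  intro i hi
  have hi' : i ≤ k := Nat.lt_succ_iff.mp (Finset.mem_range.mp hi)
  simp only [Function.Embedding.coeFn_mk]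
  rw [Nat.pow_div hi' hp.pos, Nat.divisors_prime_pow hp, Nat.divisors_prime_pow hp]
  simp

theorem tau4_mul (p k m : ℕ) (hp : p.Prime) (hm : ¬ p ∣ m) :
    tau4 (p ^ k * m) = (k + 3).choose 3 * tau4 m := by
  have hc : Nat.Coprime (p ^ k) m := Nat.Coprime.pow_left k ((Nat.Prime.coprime_iff_not_dvd hp).mpr hm)
  rw [tau4_eq, (ArithmeticFunction.isMultiplicative_sigma.mul
    ArithmeticFunction.isMultiplicative_sigma).map_mul_of_coprime hc, ← tau4_eq, ← tau4_eq,
    tau4_prime_pow p k hp]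

theorem sum_smooth (P : Finset ℕ) (hP : ∀ q ∈ P, q.Prime) (p : ℕ) (hp : p.Prime) (hpP : p ∉ P)
    (N : ℕ) :
    ∑ n ∈ (Icc 1 N).filter (fun n => n.primeFactors ⊆ insert p P), (tau4 n : ℝ) / n =
    ∑ k ∈ range (N + 1), ((k + 3).choose 3 : ℝ) / (p : ℝ) ^ k *
      ∑ m ∈ (Icc 1 (N / p ^ k)).filter (fun m => m.primeFactors ⊆ P), (tau4 m : ℝ) / m := by
  simp_rw [Finset.mul_sum]
  rw [Finset.sum_sigma']
  refine Finset.sum_bij' (fun n _ => (⟨n.factorization p, n / p ^ n.factorization p⟩ : Σ _ : ℕ, ℕ))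
    (fun x _ => p ^ x.1 * x.2) ?_ ?_ ?_ ?_ ?_
  · intro n hn
    rw [Finset.mem_filter, Finset.mem_Icc] at hn
    obtain ⟨⟨hn1, hn2⟩, hn3⟩ := hn
    have hn0 : n ≠ 0 := by omega
    rw [Finset.mem_sigma, Finset.mem_filter, Finset.mem_range, Finset.mem_Icc]
    refine ⟨?_, ⟨?_, ?_⟩, ?_⟩
    · have h1 : p ^ n.factorization p ≤ n := Nat.ordProj_le p hn0
      have h2 : n.factorization p < p ^ n.factorization p := Nat.lt_pow_self hp.one_lt
      change n.factorization p < N + 1
      omega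
    · exact Nat.ordCompl_pos p hn0
    · exact Nat.div_le_div_right hn2
    · intro q hq
      have hq1 : q.Prime := Nat.prime_of_mem_primeFactors hq
      have hq2 : q ∣ n / p ^ n.factorization p := Nat.dvd_of_mem_primeFactors hq
      have hq3 : q ∣ n := hq2.trans (Nat.ordCompl_dvd n p)
      have hq4 : q ∈ insert p P := hn3 (Nat.mem_primeFactors.mpr ⟨hq1, hq3, hn0⟩)
      rcases Finset.mem_insert.mp hq4 with h | h
      · rw [h] at hq2
        exact absurd hq2 (Nat.not_dvd_ordCompl hp hn0)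
      · exact h
  · rintro ⟨k, m⟩ hx
    rw [Finset.mem_sigma, Finset.mem_filter, Finset.mem_range, Finset.mem_Icc] at hx
    obtain ⟨_, ⟨hm1, hm2⟩, hm3⟩ := hx
    change 1 ≤ m at hm1
    change m ≤ N / p ^ k at hm2
    change m.primeFactors ⊆ P at hm3
    rw [Finset.mem_filter, Finset.mem_Icc]
    have hpk : 0 < p ^ k := pow_pos hp.pos k
    refine ⟨⟨Nat.mul_pos hpk hm1, ?_⟩, ?_⟩
    · have := (Nat.le_div_iff_mul_le hpk).mp hm2
      change p ^ k * m ≤ N
      rw [mul_comm]
      exact this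
    · intro q hq
      have hq1 : q.Prime := Nat.prime_of_mem_primeFactors hq
      have hq2 : q ∣ p ^ k * m := Nat.dvd_of_mem_primeFactors hq
      rcases (Nat.Prime.dvd_mul hq1).mp hq2 with h | h
      · have h1 : q ∣ p := hq1.dvd_of_dvd_pow h
        have h2 : q = p := (Nat.prime_dvd_prime_iff_eq hq1 hp).mp h1
        rw [h2]
        exact Finset.mem_insert_self _ _
      · exact Finset.mem_insert_of_mem (hm3 (Nat.mem_primeFactors.mpr ⟨hq1, h, by omega⟩))
  · intro n hn
    exact Nat.ordProj_mul_ordCompl_eq_self n p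
  · rintro ⟨k, m⟩ hx
    rw [Finset.mem_sigma, Finset.mem_filter, Finset.mem_range, Finset.mem_Icc] at hx
    obtain ⟨_, ⟨hm1, hm2⟩, hm3⟩ := hx
    change 1 ≤ m at hm1
    change m.primeFactors ⊆ P at hm3
    have hm0 : m ≠ 0 := by omega
    have hpm : ¬ p ∣ m := fun h => hpP (hm3 (Nat.mem_primeFactors.mpr ⟨hp, h, hm0⟩))
    have h1 : (p ^ k * m).factorization p = k := by
      rw [Nat.factorization_mul (pow_ne_zero k hp.ne_zero) hm0, Finsupp.add_apply,
        Nat.factorization_eq_zero_of_not_dvd hpm, hp.factorization_pow]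
      simp
    change (⟨(p ^ k * m).factorization p, p ^ k * m / p ^ (p ^ k * m).factorization p⟩ :
      Σ _ : ℕ, ℕ) = ⟨k, m⟩
    rw [h1, Nat.mul_div_cancel_left m (pow_pos hp.pos k)]
  · intro n hn
    rw [Finset.mem_filter, Finset.mem_Icc] at hn
    obtain ⟨⟨hn1, hn2⟩, hn3⟩ := hn
    have hn0 : n ≠ 0 := by omega
    change (tau4 n : ℝ) / n = ((n.factorization p + 3).choose 3 : ℝ) / (p : ℝ) ^ n.factorization p *
      ((tau4 (n / p ^ n.factorization p) : ℝ) / ((n / p ^ n.factorization p : ℕ) : ℝ))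
    have h1 := Nat.ordProj_mul_ordCompl_eq_self n p
    have h2 := tau4_mul p (n.factorization p) (n / p ^ n.factorization p) hp
      (Nat.not_dvd_ordCompl hp hn0)
    rw [h1] at h2
    have h3 : (n : ℝ) = (p : ℝ) ^ n.factorization p * ((n / p ^ n.factorization p : ℕ) : ℝ) := by
      have := congrArg (fun x : ℕ => (x : ℝ)) h1
      push_cast at this
      rw [← this]
    rw [h2, div_mul_div_comm, ← h3]
    push_cast
    rfl

theorem t_G1 : S_G1 := by
  intro P hP p hp hpP N
  unfold Gd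
  rw [sum_smooth P hP p hp hpP N]
  have hV : V (insert p P) = (1 - 1 / (p : ℝ)) ^ 2 * V P := by
    unfold V
    rw [Finset.prod_insert hpP]
  rw [hV, Finset.mul_sum, Finset.mul_sum]
  refine Finset.sum_congr rfl ?_
  intro k _
  ring

end Pool.Agent.H59.TM
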