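import Pool.Agent.H19.TM.Stm4

/-!
# Module J1 of project TM3 (statement by helper19)
-/

set_option autoImplicit false

namespace Pool.Agent.H59.TM

open Filter Topology MeasureTheory

/-- the approximations of `j` (method of steps) -/
noncomputable def fs (c : ℝ) : ℕ → ℝ → ℝ
  | 0 => fun u => c * (max u 0) ^ 4
  | (n + 1) => fun u => (max u 0) ^ 4 * (c - 4 * ∫ t in (1 : ℝ)..u, fs c n (t - 1) / (max t 1) ^ 5)

theorem max_pow_ne (t : ℝ) : (max t 1) ^ 5 ≠ 0 := by
  have : 0 < max t 1 := lt_of_lt_of_le one_pos (le_max_right _ _)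
  positivity

theorem cont_integrand (h : ℝ → ℝ) (hh : Continuous h) :
    Continuous (fun t : ℝ => h (t - 1) / (max t 1) ^ 5) := by
  refine Continuous.div ?_ ?_ max_pow_ne
  · exact hh.comp (continuous_id.sub continuous_const)
  · exact (continuous_id.max continuous_const).pow 5

theorem fs_cont (c : ℝ) (n : ℕ) : Continuous (fs c n) := by
  induction n with
  | zero =>
    change Continuous (fun u : ℝ => c * (max u 0) ^ 4)
    exact continuous_const.mul ((continuous_id.max continuous_const).pow 4)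
  | succ n ih =>
    change Continuous (fun u : ℝ => (max u 0) ^ 4 *
      (c - 4 * ∫ t in (1 : ℝ)..u, fs c n (t - 1) / (max t 1) ^ 5))
    refine ((continuous_id.max continuous_const).pow 4).mul ?_
    refine continuous_const.sub (continuous_const.mul ?_)
    have hc := cont_integrand _ ih
    exact intervalIntegral.continuous_primitive (fun a b => hc.intervalIntegrable a b) 1

theorem fs_zero (c : ℝ) (n : ℕ) (u : ℝ) (hu : u ≤ 0) : fs c n u = 0 := by
  cases n with
  | zero =>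
    change c * (max u 0) ^ 4 = 0
    rw [max_eq_right hu]
    simp
  | succ n =>
    change (max u 0) ^ 4 * _ = 0
    rw [max_eq_right hu]
    simp

/-- if `h` vanishes on `(-∞, 0]`, the integral vanishes for `u ≤ 1` -/
theorem int_zero (h : ℝ → ℝ) (hh : ∀ u, u ≤ 0 → h u = 0) (u : ℝ) (hu : u ≤ 1) :
    ∫ t in (1 : ℝ)..u, h (t - 1) / (max t 1) ^ 5 = 0 := by
  rw [intervalIntegral.integral_congr (g := fun _ => (0 : ℝ))]
  · simp
  · intro t ht
    rw [Set.uIcc_of_ge hu] at ht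
    change h (t - 1) / (max t 1) ^ 5 = 0
    rw [hh (t - 1) (by linarith [ht.2])]
    simp

theorem fs_step (c : ℝ) (n : ℕ) : ∀ u : ℝ, u ≤ n + 1 → fs c (n + 1) u = fs c n u := by
  induction n with
  | zero =>
    intro u hu
    change (max u 0) ^ 4 * (c - 4 * ∫ t in (1 : ℝ)..u, fs c 0 (t - 1) / (max t 1) ^ 5) =
      c * (max u 0) ^ 4
    rw [int_zero _ (fs_zero c 0) u (by simpa using hu)]
    ring
  | succ n ih =>
    intro u hu
    change (max u 0) ^ 4 * (c - 4 * ∫ t in (1 : ℝ)..u, fs c (n + 1) (t - 1) / (max t 1) ^ 5) =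
      (max u 0) ^ 4 * (c - 4 * ∫ t in (1 : ℝ)..u, fs c n (t - 1) / (max t 1) ^ 5)
    have h1 : ∫ t in (1 : ℝ)..u, fs c (n + 1) (t - 1) / (max t 1) ^ 5 =
        ∫ t in (1 : ℝ)..u, fs c n (t - 1) / (max t 1) ^ 5 := by
      apply intervalIntegral.integral_congr
      intro t ht
      change fs c (n + 1) (t - 1) / (max t 1) ^ 5 = fs c n (t - 1) / (max t 1) ^ 5
      rw [ih (t - 1)]
      have h2 := ht.2
      have h3 : max 1 u ≤ (n : ℝ) + 2 := by
        apply max_le
        · have : (0 : ℝ) ≤ n := Nat.cast_nonneg n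
          linarith
        · push_cast at hu
          linarith
      linarith
    rw [h1]

theorem fs_stable (c : ℝ) (n m : ℕ) (hnm : n ≤ m) (u : ℝ) (hu : u ≤ n) :
    fs c m u = fs c n u := by
  induction m, hnm using Nat.le_induction with
  | base => rfl
  | succ m hm ih =>
    rw [fs_step c m u, ih]
    have : (n : ℝ) ≤ m := by exact_mod_cast hm
    linarith

/-- the limit function -/
noncomputable def jf (c : ℝ) (u : ℝ) : ℝ := fs c ⌈|u|⌉₊ u

theorem jf_eq (c : ℝ) (n : ℕ) (u : ℝ) (hu : |u| ≤ n) : jf c u = fs c n u := by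
  unfold jf
  symm
  apply fs_stable
  · exact Nat.ceil_le.mpr hu
  · exact (le_abs_self u).trans (Nat.le_ceil _)

theorem jf_zero (c : ℝ) (u : ℝ) (hu : u ≤ 0) : jf c u = 0 := fs_zero c _ u hu

theorem jf_int (c : ℝ) (u : ℝ) :
    jf c u = (max u 0) ^ 4 * (c - 4 * ∫ t in (1 : ℝ)..u, jf c (t - 1) / (max t 1) ^ 5) := by
  obtain ⟨n, hn⟩ : ∃ n : ℕ, |u| + 1 ≤ n := exists_nat_ge (|u| + 1)
  rw [jf_eq c (n + 1) u (by push_cast; linarith)]
  change (max u 0) ^ 4 * (c - 4 * ∫ t in (1 : ℝ)..u, fs c n (t - 1) / (max t 1) ^ 5) = _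
  have h1 : ∫ t in (1 : ℝ)..u, fs c n (t - 1) / (max t 1) ^ 5 =
      ∫ t in (1 : ℝ)..u, jf c (t - 1) / (max t 1) ^ 5 := by
    apply intervalIntegral.integral_congr
    intro t ht
    change fs c n (t - 1) / (max t 1) ^ 5 = jf c (t - 1) / (max t 1) ^ 5
    rw [jf_eq c n (t - 1)]
    have h2 : |t - 1| ≤ |u - 1| := by
      have h3 := Set.abs_sub_left_of_mem_uIcc ht
      exact h3
    have h3 : |u - 1| ≤ |u| + 1 := by
      calc |u - 1| ≤ |u| + |(1 : ℝ)| := abs_sub _ _
        _ = |u| + 1 := by rw [abs_one]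
    linarith
  rw [h1]

theorem jf_cont (c : ℝ) : Continuous (jf c) := by
  rw [continuous_iff_continuousAt]
  intro u
  obtain ⟨n, hn⟩ : ∃ n : ℕ, |u| < n := exists_nat_gt |u|
  have h1 : ∀ᶠ v in 𝓝 u, jf c v = fs c n v := by
    have h2 : ∀ᶠ v : ℝ in 𝓝 u, |v| < (n : ℝ) :=
      (continuous_abs.tendsto u).eventually (gt_mem_nhds hn)
    filter_upwards [h2] with v hv
    exact jf_eq c n v hv.le
  exact ((fs_cont c n).continuousAt).congr (h1.mono fun v hv => hv.symm)

theorem jf_deriv (c : ℝ) (u : ℝ) (hu : 0 < u) :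
    HasDerivAt (jf c) (4 * (jf c u - jf c (u - 1)) / u) u := by
  have hg : Continuous (fun t : ℝ => jf c (t - 1) / (max t 1) ^ 5) :=
    cont_integrand _ (jf_cont c)
  have h1 : HasDerivAt (fun v : ℝ => ∫ t in (1 : ℝ)..v, jf c (t - 1) / (max t 1) ^ 5)
      (jf c (u - 1) / (max u 1) ^ 5) u :=
    intervalIntegral.integral_hasDerivAt_right (hg.intervalIntegrable _ _)
      (hg.stronglyMeasurableAtFilter _ _) hg.continuousAt
  have h2 : HasDerivAt (fun v : ℝ => v ^ 4) (4 * u ^ 3) u := by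
    simpa using hasDerivAt_pow 4 u
  have h3 := h2.mul ((h1.const_mul 4).const_sub c)
  have h4 : ∀ᶠ v in 𝓝 u, jf c v = v ^ 4 *
      (c - 4 * ∫ t in (1 : ℝ)..v, jf c (t - 1) / (max t 1) ^ 5) := by
    filter_upwards [lt_mem_nhds hu] with v hv
    rw [jf_int c v, max_eq_left hv.le]
  have h5 := h3.congr_of_eventuallyEq h4
  have h6 := h4.self_of_nhds
  set I := ∫ t in (1 : ℝ)..u, jf c (t - 1) / (max t 1) ^ 5 with hI
  have h7 : u ^ 4 * (jf c (u - 1) / (max u 1) ^ 5) = jf c (u - 1) / u := by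
    rcases le_total u 1 with h | h
    · rw [jf_zero c (u - 1) (by linarith)]
      simp
    · rw [max_eq_left h]
      field_simp
  have h8 : 4 * u ^ 3 * (c - 4 * I) = 4 * jf c u / u := by
    rw [h6]
    field_simp
  have h9 : 4 * u ^ 3 * (c - 4 * I) + u ^ 4 * -(4 * (jf c (u - 1) / (max u 1) ^ 5)) =
      4 * jf c u / u - 4 * (jf c (u - 1) / u) := by
    rw [h8, ← h7]
    ring
  rw [h9] at h5
  have h10 : 4 * (jf c u - jf c (u - 1)) / u = 4 * jf c u / u - 4 * (jf c (u - 1) / u) := by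
    ring
  rw [h10]
  exact h5

theorem t_J1 : Pool.Agent.H19.TM.S_J1 := by
  refine ⟨jf (Real.exp (-(4 * Real.eulerMascheroniConstant)) / 24), jf_cont _, jf_zero _, ?_,
    jf_deriv _⟩
  intro u hu hu1
  rw [jf_int, int_zero _ (jf_zero _) u hu1, max_eq_left hu]
  ring

end Pool.Agent.H59.TM
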